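import Mathlib
import Pool.Agent.H31.WC

set_option autoImplicit false
open Pool.Agent.H31.WC

namespace Pool.Agent.Results.MP_933b0f_co.Counter

theorem result :
    (∀ n q : ℕ, q + 4 ≤ n → 9 * (n - q - 1) < n → 2 * (n - q - 1) < comp n q) ∧
    ∃ ε : ℝ, 0 < ε ∧ ∀ N : ℕ, ∃ n q : ℕ, N ≤ n ∧ 0 < q ∧ (q : ℝ) = (1 - ε) * n ∧
      comp n q ≠ min n (2 * (n - q - 1)) := by
  have h : ∀ n q : ℕ, q + 4 ≤ n → 9 * (n - q - 1) < n → 2 * (n - q - 1) < comp n q :=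
    fun n q h1 h2 => main (n - q - 1) q (by omega) h2 (by omega)
  refine ⟨h, 1 / 10, by norm_num, fun N => ⟨10 * (N + 4), 9 * (N + 4), by omega, by omega,
    by push_cast; ring, ?_⟩⟩
  have := h (10 * (N + 4)) (9 * (N + 4)) (by omega) (by omega)
  omega

end Pool.Agent.Results.MP_933b0f_co.Counter
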